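import Pool.Agent.MP_887f27_pr.H69.Proc

/-! The energy bound. -/

namespace Pool.Agent.MP_887f27_pr.H51

open MeasureTheory ProbabilityTheory Set Filter
open scoped ENNReal
open Pool.Agent.MP_887f27_pr.H69

/-- Spin of `v` after `n` rings. -/
noncomputable def A (ω : Om) (v : V) : ℕ → Bool
  | 0 => ω.2 v
  | n + 1 => rI (ω.1.2 (v, n)) (fun d => valI rI ω (v * g d) (tm (ω.1.1 v) n))

/-- Disagreement indicator. -/
def df (a b : Bool) : ℕ := if a = b then 0 else 1

lemma df_comm (a b : Bool) : df a b = df b a := by cases a <;> cases b <;> rfl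

lemma df_le (a b : Bool) : df a b ≤ 1 := by cases a <;> cases b <;> simp [df]

lemma valI_A {ω : Om} (hG : Good ω.1.1) (v : V) (t : ℝ) :
    valI rI ω v t = A ω v (cnt (ω.1.1 v) t) := by
  rcases h : cnt (ω.1.1 v) t with _ | n
  · exact valI_zero rI h
  · exact valI_succ rI hG h

/-- Disagreements with `w` just before the rings of `u`. -/
noncomputable def Sb (ω : Om) (u w : V) (t : ℝ) : ℕ :=
  ∑ n ∈ Finset.range (cnt (ω.1.1 u) t), df (A ω u n) (valI rI ω w (tm (ω.1.1 u) n))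

/-- Disagreements with `w` just after the rings of `u`. -/
noncomputable def Sa (ω : Om) (u w : V) (t : ℝ) : ℕ :=
  ∑ n ∈ Finset.range (cnt (ω.1.1 u) t), df (A ω u (n + 1)) (valI rI ω w (tm (ω.1.1 u) n))

/-- The telescoping identity. -/
def Tel (ω : Om) (u w : V) (t : ℝ) : Prop :=
  df (valI rI ω u t) (valI rI ω w t) + Sb ω u w t + Sb ω w u t =
    df (ω.2 u) (ω.2 w) + Sa ω u w t + Sa ω w u t

lemma Tel.symm {ω : Om} {u w : V} {t : ℝ} (h : Tel ω u w t) : Tel ω w u t := by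
  unfold Tel at h ⊢
  rw [df_comm (valI rI ω w t), df_comm (ω.2 w)]
  omega

lemma tel_step {ω : Om} (hG : Good ω.1.1) {u w : V} {t : ℝ} {a : ℕ}
    (ha : cnt (ω.1.1 u) t = a + 1)
    (hb : cnt (ω.1.1 w) (tm (ω.1.1 u) a) = cnt (ω.1.1 w) t)
    (h : Tel ω u w (tm (ω.1.1 u) a)) : Tel ω u w t := by
  have h1 : cnt (ω.1.1 u) (tm (ω.1.1 u) a) = a := cnt_tm (hG.1 u) a
  unfold Tel Sb Sa at h ⊢
  rw [h1, hb] at h
  rw [ha, Finset.sum_range_succ, Finset.sum_range_succ]
  have e1 : valI rI ω u t = A ω u (a + 1) := by rw [valI_A hG, ha]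
  have e2 : valI rI ω u (tm (ω.1.1 u) a) = A ω u a := by rw [valI_A hG, h1]
  have e3 : valI rI ω w t = valI rI ω w (tm (ω.1.1 u) a) := valI_congr_cnt rI ω hb.symm
  rw [e1, e3]
  rw [e2] at h
  omega

lemma cnt_same {ξ : ℕ → ℝ} (hp : ∀ n, 0 < ξ n) {s t : ℝ} (ht : ∃ n, t ≤ tm ξ n) (hst : s ≤ t)
    (h : ∀ b, cnt ξ t = b + 1 → tm ξ b < s) : cnt ξ s = cnt ξ t := by
  refine cnt_eq_of (hst.trans (le_tm_cnt ht)) fun m hm => ?_
  obtain ⟨b, hb⟩ : ∃ b, cnt ξ t = b + 1 := ⟨cnt ξ t - 1, by omega⟩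
  exact lt_of_le_of_lt ((tm_strictMono hp).monotone (by omega)) (h b hb)

lemma tel {ω : Om} (hG : Good ω.1.1) :
    ∀ (N : ℕ) (u w : V) (t : ℝ), u ≠ w → cnt (ω.1.1 u) t + cnt (ω.1.1 w) t = N → Tel ω u w t := by
  intro N
  induction N with
  | zero =>
    intro u w t _ h
    have hu : cnt (ω.1.1 u) t = 0 := by omega
    have hw : cnt (ω.1.1 w) t = 0 := by omega
    unfold Tel Sb Sa
    rw [hu, hw, valI_zero rI hu, valI_zero rI hw]
    simp
  | succ N ih =>
    have key : ∀ (u w : V) (t : ℝ) (a : ℕ), u ≠ w →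
        cnt (ω.1.1 u) t + cnt (ω.1.1 w) t = N + 1 → cnt (ω.1.1 u) t = a + 1 →
        (∀ b, cnt (ω.1.1 w) t = b + 1 → tm (ω.1.1 w) b < tm (ω.1.1 u) a) → Tel ω u w t := by
      intro u w t a huw h ha hb
      have hlt : tm (ω.1.1 u) a < t := tm_lt_of_lt_cnt (by omega)
      have hc := cnt_same (hG.1 w) (hG.2.1 w t) hlt.le hb
      refine tel_step hG ha hc (ih u w _ huw ?_)
      rw [hc, cnt_tm (hG.1 u)]
      omega
    intro u w t huw h
    rcases hu : cnt (ω.1.1 u) t with _ | a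
    · obtain ⟨b, hb⟩ : ∃ b, cnt (ω.1.1 w) t = b + 1 := ⟨N, by omega⟩
      exact (key w u t b huw.symm (by omega) hb (fun a ha => by omega)).symm
    · rcases hw : cnt (ω.1.1 w) t with _ | b
      · exact key u w t a huw h hu (fun b hb => by omega)
      · rcases lt_or_gt_of_ne (hG.2.2.1 u w a b huw) with hl | hl
        · refine (key w u t b huw.symm (by omega) hw (fun a' ha' => ?_)).symm
          obtain rfl : a' = a := by omega
          exact hl
        · refine key u w t a huw h hu (fun b' hb' => ?_)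
          obtain rfl : b' = b := by omega
          exact hl

lemma tel_le {ω : Om} (hG : Good ω.1.1) {u w : V} (huw : u ≠ w) (t : ℝ) :
    Sb ω u w t + Sb ω w u t ≤ 1 + Sa ω u w t + Sa ω w u t := by
  have h := tel hG _ u w t huw rfl
  unfold Tel at h
  have := df_le (ω.2 u) (ω.2 w)
  omega

/-! Shifts. -/

lemma A_shO (u : V) (ω : Om) (v : V) : ∀ n, A (shO u ω) v n = A ω (u * v) n
  | 0 => rfl
  | n + 1 => by
    simp only [A, valI_shO, mul_assoc]
    rfl

lemma Sb_shO (u : V) (ω : Om) (v w : V) (t : ℝ) :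
    Sb (shO u ω) v w t = Sb ω (u * v) (u * w) t := by
  simp only [Sb, A_shO, valI_shO]
  rfl

lemma Sa_shO (u : V) (ω : Om) (v w : V) (t : ℝ) :
    Sa (shO u ω) v w t = Sa ω (u * v) (u * w) t := by
  simp only [Sa, A_shO, valI_shO]
  rfl

/-! Measurability. -/

lemma ms_tm (v : V) (n : ℕ) : Measurable fun ω : Om => tm (ω.1.1 v) n :=
  (measurable_tm n).comp (f := fun ω : Om => ω.1.1 v) (by fun_prop)

lemma ms_valI (w : V) {T : Om → ℝ} (hT : Measurable T) :
    Measurable fun ω : Om => valI rI ω w (T ω) :=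
  (measurable_valI rI w).comp (f := fun ω : Om => (ω, T ω)) (measurable_id.prodMk hT)

lemma ms_cnt (v : V) (t : ℝ) : Measurable fun ω : Om => cnt (ω.1.1 v) t :=
  (measurable_cntO v).comp (f := fun ω : Om => (ω, t)) (by fun_prop)

lemma ms_A (v : V) : ∀ n, Measurable fun ω : Om => A ω v n
  | 0 => by simp only [A]; fun_prop
  | n + 1 => by
    simp only [A]
    exact (measurable_rule rI).comp
      (f := fun ω : Om => (ω.1.2 (v, n), fun d => valI rI ω (v * g d) (tm (ω.1.1 v) n)))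
      (Measurable.prodMk (by fun_prop)
        (measurable_pi_lambda _ fun d => ms_valI _ (ms_tm v n)))

lemma ms_df {a b : Om → Bool} (ha : Measurable a) (hb : Measurable b) :
    Measurable fun ω => df (a ω) (b ω) :=
  (measurable_of_countable (fun p : Bool × Bool => df p.1 p.2)).comp
    (f := fun ω => (a ω, b ω)) (ha.prodMk hb)

lemma ms_Sb (u w : V) (t : ℝ) : Measurable fun ω : Om => Sb ω u w t :=
  measurable_at_index
    (f := fun (k : ℕ) (ω : Om) =>
      ∑ n ∈ Finset.range k, df (A ω u n) (valI rI ω w (tm (ω.1.1 u) n)))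
    (fun _ => Finset.measurable_sum _ fun n _ => ms_df (ms_A u n) (ms_valI w (ms_tm u n)))
    (ms_cnt u t)

lemma ms_Sa (u w : V) (t : ℝ) : Measurable fun ω : Om => Sa ω u w t :=
  measurable_at_index
    (f := fun (k : ℕ) (ω : Om) =>
      ∑ n ∈ Finset.range k, df (A ω u (n + 1)) (valI rI ω w (tm (ω.1.1 u) n)))
    (fun _ => Finset.measurable_sum _ fun n _ => ms_df (ms_A u (n + 1)) (ms_valI w (ms_tm u n)))
    (ms_cnt u t)

lemma ms_cast {f : Om → ℕ} (hf : Measurable f) : Measurable fun ω => (f ω : ℝ≥0∞) :=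
  (measurable_of_countable (fun n : ℕ => (n : ℝ≥0∞))).comp hf

lemma ms_Low (k : ℕ) : MeasurableSet {ω : Om | Low k ω} := by
  have hT : Measurable fun ω : Om => tm (ω.1.1 1) (cnt (ω.1.1 1) k) :=
    measurable_at_index (f := fun (n : ℕ) (ω : Om) => tm (ω.1.1 1) n) (ms_tm 1) (ms_cnt 1 k)
  have h1 : MeasurableSet {ω : Om | tm (ω.1.1 1) (cnt (ω.1.1 1) k) < k + 1} :=
    measurableSet_lt hT measurable_const
  have h2 : Measurable fun ω : Om => ((valI rI ω 1 k,
      fun d => valI rI ω (g d) (tm (ω.1.1 1) (cnt (ω.1.1 1) k))) : Bool × (Dir → Bool)) :=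
    (ms_valI 1 measurable_const).prodMk (measurable_pi_lambda _ fun d => ms_valI _ hT)
  have h3 : MeasurableSet {p : Bool × (Dir → Bool) | ∃ s, p.1 ≠ s ∧ Three fun d => p.2 d = s} :=
    MeasurableSet.of_discrete
  exact h1.inter (h2 h3)

/-! The pointwise gain. -/

lemma gain_le (a : Bool) (δ : Dir) (y : Dir → Bool) :
    ∑ d, df (rI δ y) (y d) ≤ ∑ d, df a (y d) := by
  revert a δ y
  unfold rI df
  decide +kernel

lemma gain_low (a : Bool) (δ : Dir) (y : Dir → Bool) (h : ∃ s, a ≠ s ∧ Three fun d => y d = s) :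
    ∑ d, df (rI δ y) (y d) + 2 ≤ ∑ d, df a (y d) := by
  simp only [three_iff] at h
  obtain ⟨s, h1, e, h2⟩ := h
  revert a δ y s e
  have key : ∀ (a : Bool) (δ : Dir) (y : Dir → Bool) (s : Bool) (e : Dir), a ≠ s →
      (∀ d, d ≠ e → y d = s) → ∑ d, df (rI δ y) (y d) + 2 ≤ ∑ d, df a (y d) := by
    unfold rI df
    decide +kernel
  intro a δ y s h1 e h2
  exact key a δ y s e h1 h2

open Classical in
lemma gain {ω : Om} (hG : Good ω.1.1) (N : ℕ) :
    ∑ d, Sa ω 1 (g d) N + 2 * ((Finset.range N).filter fun k => Low k ω).card ≤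
      ∑ d, Sb ω 1 (g d) N := by
  set Lw : ℕ → Prop := fun n =>
    ∃ s, A ω 1 n ≠ s ∧ Three fun d => valI rI ω (g d) (tm (ω.1.1 1) n) = s with hLw
  have hc : ((Finset.range N).filter fun k => Low k ω).card ≤
      ((Finset.range (cnt (ω.1.1 1) N)).filter Lw).card := by
    refine Finset.card_le_card_of_injOn (fun k => cnt (ω.1.1 1) k) ?_ ?_
    · intro k hk
      simp only [Finset.coe_filter, Finset.mem_range, mem_ofPred_eq] at hk ⊢
      obtain ⟨hk, h1, h2⟩ := hk
      refine ⟨(lt_cnt_iff (hG.1 1) (hG.2.1 1 _)).2 (h1.trans_le ?_), ?_⟩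
      · exact_mod_cast hk
      · rw [valI_A hG] at h2
        exact h2
    · have aux : ∀ k k' : ℕ, k < k' → Low k ω → cnt (ω.1.1 1) k ≠ cnt (ω.1.1 1) k' := by
        intro k k' hkk h1 he
        have h2 := le_tm_cnt (hG.2.1 1 k')
        have h3 : (k : ℝ) + 1 ≤ k' := by exact_mod_cast hkk
        have h4 := h1.1
        rw [he] at h4
        linarith
      intro k hk k' hk' he
      simp only [Finset.coe_filter, Finset.mem_range, mem_ofPred_eq] at hk hk'
      rcases lt_trichotomy k k' with h | h | h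
      · exact absurd he (aux k k' h hk.2)
      · exact h
      · exact absurd he.symm (aux k' k h hk'.2)
  refine le_trans (Nat.add_le_add_left (Nat.mul_le_mul_left 2 hc) _) ?_
  unfold Sa Sb
  rw [Finset.sum_comm, Finset.sum_comm (s := Finset.univ), Finset.card_filter, Finset.mul_sum,
    ← Finset.sum_add_distrib]
  refine Finset.sum_le_sum fun n _ => ?_
  have e : A ω 1 (n + 1) = rI (ω.1.2 (1, n)) (fun d => valI rI ω (g d) (tm (ω.1.1 1) n)) := by
    simp only [A, one_mul]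
  rw [e]
  split_ifs with h
  · exact gain_low _ _ _ h
  · exact gain_le _ _ _

/-! Finite expectation. -/

lemma ex1_lt (N : ℕ) : ex1 (Iic (N : ℝ)) < 1 := by
  have h := cdf_expMeasure_eq (r := 1) one_pos (N : ℝ)
  rw [if_pos (Nat.cast_nonneg N)] at h
  have h2 : ENNReal.ofReal (cdf ex1 N) = ex1 (Iic (N : ℝ)) := ofReal_cdf ex1 N
  rw [← h2]
  unfold ex1
  rw [h, ENNReal.ofReal_lt_one]
  linarith [Real.exp_pos (-(1 * (N : ℝ)))]

lemma cnt_fin (hA : GoodAE) (q : ℝ) (N : ℕ) :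
    ∫⁻ ω, (cnt (ω.1.1 1) N : ℝ≥0∞) ∂PP q ≠ ∞ := by
  set E : ℕ → Set Clk := fun n =>
    (fun ξ : Clk => ξ 1) ⁻¹' (Set.pi (Finset.range (n + 1) : Set ℕ) fun _ => Iic (N : ℝ)) with hE
  have mP : ∀ n, MeasurableSet
      (Set.pi (Finset.range (n + 1) : Set ℕ) fun _ => Iic (N : ℝ)) := fun n =>
    MeasurableSet.pi (Finset.countable_toSet _) fun _ _ => measurableSet_Iic
  have mE : ∀ n, MeasurableSet (E n) := fun n => (measurable_pi_apply 1) (mP n)
  have hm : ∀ n, PP q {ω | ω.1.1 ∈ E n} = ex1 (Iic (N : ℝ)) ^ (n + 1) := by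
    intro n
    rw [PP_clk q (mE n)]
    have h1 : MeasurePreserving (fun ξ : Clk => ξ 1) muC mu1 :=
      measurePreserving_eval_infinitePi (fun _ : V => mu1) 1
    rw [hE]
    simp only
    rw [h1.measure_preimage (mP n).nullMeasurableSet]
    unfold mu1
    rw [Measure.infinitePi_pi _ fun _ _ => measurableSet_Iic]
    simp
  have mE' : ∀ n, MeasurableSet {ω : Om | ω.1.1 ∈ E n} := fun n =>
    (show Measurable fun ω : Om => ω.1.1 by fun_prop) (mE n)
  have hle : ∫⁻ ω, (cnt (ω.1.1 1) N : ℝ≥0∞) ∂PP q ≤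
      ∫⁻ ω, ∑' n, ({ω : Om | ω.1.1 ∈ E n}).indicator 1 ω ∂PP q := by
    refine lintegral_mono_ae ((ae_good hA q).mono fun ω hG => ?_)
    calc (cnt (ω.1.1 1) N : ℝ≥0∞)
        = ∑ n ∈ Finset.range (cnt (ω.1.1 1) N), (1 : ℝ≥0∞) := by simp
      _ = ∑ n ∈ Finset.range (cnt (ω.1.1 1) N),
            ({ω : Om | ω.1.1 ∈ E n}).indicator (1 : Om → ℝ≥0∞) ω := by
          refine Finset.sum_congr rfl fun n hn => ?_
          rw [indicator_of_mem]
          · rfl
          · intro i hi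
            simp only [Finset.coe_range, mem_Iio] at hi
            have h1 : tm (ω.1.1 1) n < N := tm_lt_of_lt_cnt (Finset.mem_range.1 hn)
            have h2 : ω.1.1 1 i ≤ tm (ω.1.1 1) n :=
              Finset.single_le_sum (f := fun k => ω.1.1 1 k) (fun k _ => (hG.1 1 k).le)
                (Finset.mem_range.2 hi)
            exact (h2.trans h1.le : ω.1.1 1 i ≤ N)
      _ ≤ _ := ENNReal.sum_le_tsum _
  refine ne_top_of_le_ne_top ?_ hle
  rw [lintegral_tsum fun n => (measurable_one.indicator (mE' n)).aemeasurable]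
  simp only [lintegral_indicator_one (mE' _), hm]
  rw [ENNReal.tsum_geometric_add_one]
  exact ENNReal.mul_ne_top (measure_ne_top _ _)
    (ENNReal.inv_ne_top.2 (tsub_pos_iff_lt.2 (ex1_lt N)).ne')

lemma Sa_le (ω : Om) (u w : V) (t : ℝ) : Sa ω u w t ≤ cnt (ω.1.1 u) t := by
  unfold Sa
  refine (Finset.sum_le_sum fun n _ => df_le _ _).trans ?_
  simp

/-- The energy bound. -/
theorem energy : EnergyStmt := by
  classical
  intro hA q N
  set B : Dir → ℝ≥0∞ := fun d => ∫⁻ ω, (Sb ω 1 (g d) N : ℝ≥0∞) ∂PP q with hB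
  set C : Dir → ℝ≥0∞ := fun d => ∫⁻ ω, (Sa ω 1 (g d) N : ℝ≥0∞) ∂PP q with hC
  have hB' : ∀ d, ∫⁻ ω, (Sb ω (g d) 1 N : ℝ≥0∞) ∂PP q = B (rev d) := by
    intro d
    rw [hB]
    simp only
    rw [← (mp_shO q (g d)).lintegral_comp (ms_cast (ms_Sb 1 (g (rev d)) N))]
    refine lintegral_congr fun ω => ?_
    rw [Sb_shO, mul_one, g_rev, mul_inv_cancel]
  have hC' : ∀ d, ∫⁻ ω, (Sa ω (g d) 1 N : ℝ≥0∞) ∂PP q = C (rev d) := by
    intro d
    rw [hC]
    simp only
    rw [← (mp_shO q (g d)).lintegral_comp (ms_cast (ms_Sa 1 (g (rev d)) N))]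
    refine lintegral_congr fun ω => ?_
    rw [Sa_shO, mul_one, g_rev, mul_inv_cancel]
  have h1 : ∀ d, B d + B (rev d) ≤ 1 + C d + C (rev d) := by
    intro d
    have hne : (1 : V) ≠ g d := by
      have := mul_g_ne 1 d
      rw [one_mul] at this
      exact this.symm
    rw [← hB' d, ← hC' d, hB, hC]
    simp only
    rw [← lintegral_add_left (ms_cast (ms_Sb 1 (g d) N))]
    calc _ ≤ ∫⁻ ω, (1 + (Sa ω 1 (g d) N : ℝ≥0∞)) + (Sa ω (g d) 1 N : ℝ≥0∞) ∂PP q := by
          refine lintegral_mono_ae ((ae_good hA q).mono fun ω hG => ?_)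
          exact_mod_cast tel_le hG hne N
      _ = _ := by
          rw [lintegral_add_right _ (ms_cast (ms_Sa (g d) 1 N)),
            lintegral_add_left measurable_const]
          simp
  have h2 : ∑ d, B d + ∑ d, B d ≤ 4 + ∑ d, C d + ∑ d, C d := by
    have := Finset.sum_le_sum fun d (_ : d ∈ (Finset.univ : Finset Dir)) => h1 d
    rw [Finset.sum_add_distrib, Finset.sum_add_distrib, Finset.sum_add_distrib, sum_rev B,
      sum_rev C] at this
    simpa using this
  set L : ℝ≥0∞ := ∑ k ∈ Finset.range N, PP q {ω | Low k ω} with hL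
  have h3 : ∑ d, C d + 2 * L ≤ ∑ d, B d := by
    have eL : L = ∫⁻ ω, ∑ k ∈ Finset.range N, ({ω : Om | Low k ω}).indicator 1 ω ∂PP q := by
      rw [lintegral_finsetSum _ fun k _ => measurable_one.indicator (ms_Low k)]
      simp only [lintegral_indicator_one (ms_Low _), hL]
    rw [eL, hB, hC]
    simp only
    rw [← lintegral_finsetSum _ fun d _ => ms_cast (ms_Sa 1 (g d) N),
      ← lintegral_finsetSum _ fun d _ => ms_cast (ms_Sb 1 (g d) N),
      ← lintegral_const_mul _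
        (Finset.measurable_sum _ fun k _ => measurable_one.indicator (ms_Low k)),
      ← lintegral_add_left (Finset.measurable_sum _ fun d _ => ms_cast (ms_Sa 1 (g d) N))]
    refine lintegral_mono_ae ((ae_good hA q).mono fun ω hG => ?_)
    have e : ∑ k ∈ Finset.range N, ({ω : Om | Low k ω}).indicator (1 : Om → ℝ≥0∞) ω =
        (((Finset.range N).filter fun k => Low k ω).card : ℝ≥0∞) := by
      rw [Finset.card_filter]
      push_cast
      refine Finset.sum_congr rfl fun k _ => ?_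
      simp [indicator]
    rw [e]
    exact_mod_cast gain hG N
  have hfin : ∑ d, C d ≠ ∞ := by
    refine ENNReal.sum_ne_top.2 fun d _ => ne_top_of_le_ne_top (cnt_fin hA q N) ?_
    exact lintegral_mono fun ω => Nat.cast_le.2 (Sa_le ω 1 (g d) N)
  have h4 : 4 * L ≤ 4 := by
    have h5 : (∑ d, C d + ∑ d, C d) + 4 * L ≤ (∑ d, C d + ∑ d, C d) + 4 := by
      calc (∑ d, C d + ∑ d, C d) + 4 * L = (∑ d, C d + 2 * L) + (∑ d, C d + 2 * L) := by ring
        _ ≤ ∑ d, B d + ∑ d, B d := add_le_add h3 h3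
        _ ≤ 4 + ∑ d, C d + ∑ d, C d := h2
        _ = _ := by ring
    exact (ENNReal.add_le_add_iff_left (ENNReal.add_ne_top.2 ⟨hfin, hfin⟩)).1 h5
  have h6 : L ≤ 1 := by
    have : 4 * L ≤ 4 * 1 := by simpa using h4
    exact (ENNReal.mul_le_mul_iff_right (by norm_num) (by norm_num)).1 this
  have h7 : L.toReal ≤ 1 := by
    simpa using ENNReal.toReal_mono ENNReal.one_ne_top h6
  rw [hL, ENNReal.toReal_sum fun k _ => measure_ne_top _ _] at h7
  exact h7

end Pool.Agent.MP_887f27_pr.H51
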